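import Pool.Agent.Lib.MP_d55432_al.SIX.Iface

set_option autoImplicit false

/-!
# SIX, module REL2: a relation for invariant sets which are not dense in rank at most 4
-/

namespace Pool.Agent.Lib.MP_d55432_al.SIX.H74

open Matrix LieAlgebra MvPolynomial
open Pool.Agent.Lib.MP_d55432_al.DetTrick (polyAlg mem_polyAlg)

attribute [local instance 100] LieRing.ofAssociativeRing

section

variable {K : Type*} [Field K]

theorem linear_mem_polyAlg {σ : Type*} [Fintype σ] [DecidableEq σ] (φ : (σ → K) →ₗ[K] K) :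
    (fun x => φ x) ∈ polyAlg σ K := by
  refine (mem_polyAlg _).2 ⟨∑ i, C (φ (Pi.single i 1)) * X i, fun x => ?_⟩
  rw [map_sum]
  simp only [map_mul, eval_C, eval_X]
  conv_lhs => rw [← Finset.univ_sum_single x]
  rw [map_sum]
  refine Finset.sum_congr rfl fun i _ => ?_
  have : (Pi.single i (x i) : σ → K) = x i • Pi.single i 1 := by
    rw [← Pi.single_smul, smul_eq_mul, mul_one]
  rw [this, map_smul, smul_eq_mul, mul_comm]

theorem exists_poly_linear {σ : Type*} [Fintype σ] [DecidableEq σ] {L : Type*} [LieRing L]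
    [LieAlgebra K L] (F : (σ → K) →ₗ[K] L) {g : L → K} (hg : g ∈ PolyOn K L) :
    ∃ P : MvPolynomial σ K, ∀ x, g (F x) = eval x P := by
  have h := polyOn_comp K (polyAlg σ K) (fun x => F x)
    (fun ψ => linear_mem_polyAlg (ψ ∘ₗ F)) hg
  exact (mem_polyAlg _).1 h

/-- the sum of two wedges in coordinates -/
def wwM {A : Type*} [CommRing A] (c : Fin 4 × Fin 6 → A) : M6 A :=
  wedgeM (fun i => c (0, i)) (fun i => c (1, i)) + wedgeM (fun i => c (2, i)) (fun i => c (3, i))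

/-- the same as an element of the Lie algebra -/
def wwL (c : Fin 4 × Fin 6 → K) : L6 K :=
  wedge (fun i => c (0, i)) (fun i => c (1, i)) + wedge (fun i => c (2, i)) (fun i => c (3, i))

theorem wwL_coe (c : Fin 4 × Fin 6 → K) : (wwL c).1 = wwM c := rfl

theorem wwM_apply {A : Type*} [CommRing A] (c : Fin 4 × Fin 6 → A) (i j : Fin 6) :
    wwM c i j = c (0, i) * c (1, j) - c (1, i) * c (0, j) +
      (c (2, i) * c (3, j) - c (3, i) * c (2, j)) := by
  simp [wwM, wedgeM, vecMulVec_apply, Matrix.add_apply, Matrix.sub_apply]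

theorem functional_mem (ψ : Module.Dual K (L6 K)) :
    (fun c : Fin 4 × Fin 6 → K => ψ (wwL c)) ∈ polyAlg (Fin 4 × Fin 6) K := by
  obtain ⟨Ψ, hΨ⟩ := LinearMap.exists_extend (p := (LieAlgebra.Orthogonal.so (Fin 6) K).toSubmodule)
    (ψ : (LieAlgebra.Orthogonal.so (Fin 6) K).toSubmodule →ₗ[K] K)
  have h1 : ∀ x : L6 K, ψ x = Ψ x.1 := by
    intro x
    exact (LinearMap.congr_fun hΨ x).symm
  have h2 : ∀ M : M6 K, Ψ M = ∑ i, ∑ j, M i j * Ψ (Matrix.single i j 1) := by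
    intro M
    conv_lhs => rw [Matrix.matrix_eq_sum_single M]
    rw [map_sum]
    refine Finset.sum_congr rfl fun i _ => ?_
    rw [map_sum]
    refine Finset.sum_congr rfl fun j _ => ?_
    have : Matrix.single i j (M i j) = M i j • Matrix.single i j (1 : K) := by
      rw [Matrix.smul_single, smul_eq_mul, mul_one]
    rw [this, map_smul, smul_eq_mul]
  refine (mem_polyAlg _).2 ⟨∑ i, ∑ j, (X (0, i) * X (1, j) - X (1, i) * X (0, j) +
      (X (2, i) * X (3, j) - X (3, i) * X (2, j))) * C (Ψ (Matrix.single i j 1)), fun c => ?_⟩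
  rw [h1, wwL_coe, h2]
  simp only [map_sum, map_mul, map_add, map_sub, eval_X, eval_C, wwM_apply]

theorem exists_poly_ww {g : L6 K → K} (hg : g ∈ PolyOn K (L6 K)) :
    ∃ P : MvPolynomial (Fin 4 × Fin 6) K, ∀ c, g (wwL c) = eval c P := by
  have h := polyOn_comp K (polyAlg (Fin 4 × Fin 6) K) (fun x => wwL x) functional_mem hg
  exact (mem_polyAlg _).1 h

/-! ### the invariants commute with ring homomorphisms -/

section maps

variable {A B : Type*} [CommRing A] [CommRing B] (f : A →+* B)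

theorem pf4_map (x : M6 A) (a b c d : Fin 6) : pf4 (x.map f) a b c d = f (pf4 x a b c d) := by
  simp [pf4]

theorem s1_map (x : M6 A) : s1 (x.map f) = f (s1 x) := by
  simp [s1]

theorem sharpM_map (x : M6 A) : sharpM (x.map f) = (sharpM x).map f := by
  ext i j
  fin_cases i <;> fin_cases j <;> simp [sharpM, pf4_map]

theorem s2_map (x : M6 A) : s2 (x.map f) = f (s2 x) := by
  rw [s2, sharpM_map, s1_map]
  rfl

theorem wwM_map (c : Fin 4 × Fin 6 → A) : wwM (fun t => f (c t)) = (wwM c).map f := by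
  ext i j
  simp [wwM_apply]

end maps

theorem Pf_ww (c : Fin 4 × Fin 6 → K) : Pf (wwM c) = 0 := by
  simp only [Pf, pf4, wwM_apply]
  ring

/-- a traceless diagonal matrix -/
def tor (l : Fin 2 → K) : M4 K := Matrix.diagonal ![l 0, -l 0, l 1, -l 1]

theorem trace_tor (l : Fin 2 → K) : (tor l).trace = 0 := by
  simp [tor, Matrix.trace, Fin.sum_univ_four]

/-- the torus as a linear map -/
def torL (K : Type*) [Field K] : (Fin 2 → K) →ₗ[K] L4 K where
  toFun l := mk4 (tor l) (trace_tor l)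
  map_add' x y := by
    apply Subtype.ext
    change tor (x + y) = tor x + tor y
    ext i j
    fin_cases i <;> fin_cases j <;> simp [tor] <;> ring
  map_smul' c x := by
    apply Subtype.ext
    change tor (c • x) = c • tor x
    ext i j
    fin_cases i <;> fin_cases j <;> simp [tor]

theorem torL_coe (l : Fin 2 → K) : (torL K l).1 = tor l := rfl

theorem conj_trace (g h X : M4 K) (hhg : h * g = 1) : (g * X * h).trace = X.trace := by
  rw [trace_mul_comm, ← Matrix.mul_assoc, hhg, Matrix.one_mul]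

theorem conj_mul (g h X Y : M4 K) (hhg : h * g = 1) :
    (g * X * h) * (g * Y * h) = g * (X * Y) * h := by
  calc (g * X * h) * (g * Y * h) = g * X * (h * g) * Y * h := by simp only [Matrix.mul_assoc]
    _ = _ := by rw [hhg, Matrix.mul_one]; simp only [Matrix.mul_assoc]

theorem tor_p2 (l : Fin 2 → K) : (tor l * tor l).trace = ps2 l 2 := by
  simp [tor, Matrix.trace, Fin.sum_univ_four, ps2]
  ring

theorem tor_p4 (l : Fin 2 → K) : (tor l * tor l * tor l * tor l).trace = ps2 l 4 := by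
  simp [tor, Matrix.trace, Fin.sum_univ_four, ps2]
  ring

end

/-- REL2 -/
theorem rel2 (K : Type*) [Field K] [IsAlgClosed K] [CharZero K] (hT : THETA_S K) (hS : SIG_S K)
    (hR : REG2_S K) (hN : NRM2_S K) : REL2_S K := by
  intro S hinv hPf g hg hgS hex
  obtain ⟨Θ, κ, hΘ⟩ := hT
  have hκ : κ ≠ 0 := hΘ.1
  -- regular elements
  have reg : ∀ x : L6 K, Pf x.1 = 0 → s2 x.1 ≠ 0 → s1 x.1 ^ 2 + 4 * κ ^ 2 * s2 x.1 ≠ 0 →
      ∃ (l : Fin 2 → K) (φ : L6 K ≃ₗ⁅K⁆ L6 K), φ (Θ.symm (torL K l)) = x ∧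
        -ps2 l 2 = s1 x.1 ∧ (ps2 l 2 ^ 2 / 4 - ps2 l 4) / κ ^ 2 = s2 x.1 := by
    intro x h0 h2 h3
    obtain ⟨e1, e2, e3⟩ := hS Θ κ hΘ x
    rw [h0, mul_zero] at e2
    have ht : (Θ x).1.trace = 0 := (mem_sl _).1 (Θ x).2
    obtain ⟨l, G, H, hGH, hHG, hX⟩ := hR (Θ x).1 ht e2 (by
      rw [e1, e3]
      have : ((-s1 x.1) ^ 2 / 8 - (s1 x.1 ^ 2 / 4 - κ ^ 2 * s2 x.1) / 4) *
          ((-s1 x.1 / 2) ^ 2 - 4 * ((-s1 x.1) ^ 2 / 8 - (s1 x.1 ^ 2 / 4 - κ ^ 2 * s2 x.1) / 4)) =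
          (s1 x.1 ^ 2 + 4 * κ ^ 2 * s2 x.1) * (-(κ ^ 2) * s2 x.1) / 16 := by ring
      rw [this]
      refine div_ne_zero (mul_ne_zero h3 (mul_ne_zero (neg_ne_zero.2 (pow_ne_zero 2 hκ)) h2)) ?_
      norm_num)
    have hX' : (Θ x).1 = G * tor l * H := hX
    refine ⟨l, (Θ.trans (conj4 G H hGH hHG)).trans Θ.symm, ?_, ?_, ?_⟩
    · change Θ.symm (conj4 G H hGH hHG (Θ (Θ.symm (torL K l)))) = x
      rw [LieEquiv.apply_symm_apply]
      have h4 : conj4 G H hGH hHG (torL K l) = Θ x := by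
        apply Subtype.ext
        rw [conj4_coe, torL_coe, hX']
      rw [h4, LieEquiv.symm_apply_apply]
    · rw [hX', conj_mul _ _ _ _ hHG, conj_trace _ _ _ hHG, tor_p2] at e1
      rw [e1, neg_neg]
    · rw [hX', conj_mul _ _ _ _ hHG, conj_trace _ _ _ hHG, tor_p2] at e1
      rw [hX', conj_mul _ _ _ _ hHG, conj_mul _ _ _ _ hHG, conj_mul _ _ _ _ hHG,
        conj_trace _ _ _ hHG, tor_p4] at e3
      rw [e1, e3]
      field_simp
      ring
  -- a regular point where `g` does not vanish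
  obtain ⟨P, hP⟩ := exists_poly_ww hg
  obtain ⟨u, v, u', v', hne⟩ := hex
  have hP0 : P ≠ 0 := by
    rintro rfl
    apply hne
    have h1 := hP (fun t => (![u, v, u', v'] : Fin 4 → Fin 6 → K) t.1 t.2)
    rw [map_zero] at h1
    exact h1
  let M : M6 (MvPolynomial (Fin 4 × Fin 6) K) := wwM X
  let D : MvPolynomial (Fin 4 × Fin 6) K := s2 M * (s1 M ^ 2 + 4 * C κ ^ 2 * s2 M)
  have hM : ∀ c : Fin 4 × Fin 6 → K, M.map (eval c) = wwM c := by
    intro c
    have h1 := wwM_map (eval c) (X : Fin 4 × Fin 6 → MvPolynomial (Fin 4 × Fin 6) K)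
    rw [← h1]
    congr 1
    funext t
    exact eval_X t
  have hD : ∀ c, eval c D = s2 (wwM c) * (s1 (wwM c) ^ 2 + 4 * κ ^ 2 * s2 (wwM c)) := by
    intro c
    have h1 : eval c (s1 M) = s1 (wwM c) := by rw [← hM, s1_map]
    have h2 : eval c (s2 M) = s2 (wwM c) := by rw [← hM, s2_map]
    simp only [D, map_mul, map_add, map_pow, h1, h2, eval_C]
    norm_num
  have hD0 : D ≠ 0 := by
    intro h
    have key : ∀ b : K, s2 (wwM (fun t : Fin 4 × Fin 6 =>
        (![Pi.single 0 1, Pi.single 1 1, Pi.single 2 1, Pi.single 3 b] :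
          Fin 4 → Fin 6 → K) t.1 t.2)) = b ^ 2 ∧
        s1 (wwM (fun t : Fin 4 × Fin 6 =>
        (![Pi.single 0 1, Pi.single 1 1, Pi.single 2 1, Pi.single 3 b] :
          Fin 4 → Fin 6 → K) t.1 t.2)) = 1 + b ^ 2 := by
      intro b
      constructor
      · simp [s2, s1, sharpM, pf4, wwM_apply, Pi.single_apply]
      · simp [s1, wwM_apply, Pi.single_apply]
    have h1 := hD (fun t : Fin 4 × Fin 6 =>
        (![Pi.single 0 1, Pi.single 1 1, Pi.single 2 1, Pi.single 3 1] :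
          Fin 4 → Fin 6 → K) t.1 t.2)
    have h2 := hD (fun t : Fin 4 × Fin 6 =>
        (![Pi.single 0 1, Pi.single 1 1, Pi.single 2 1, Pi.single 3 2] :
          Fin 4 → Fin 6 → K) t.1 t.2)
    rw [h, map_zero, (key 1).1, (key 1).2] at h1
    rw [h, map_zero, (key 2).1, (key 2).2] at h2
    have h3 : (0 : K) = 36 := by linear_combination (-16 : K) * h1 + h2
    norm_num at h3
  obtain ⟨c, hc⟩ : ∃ c, eval c (P * D) ≠ 0 := by
    by_contra hcon
    push Not at hcon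
    exact mul_ne_zero hP0 hD0 (MvPolynomial.funext fun c => by rw [hcon, map_zero])
  rw [map_mul, hD] at hc
  obtain ⟨h1, h2⟩ := mul_ne_zero_iff.1 hc
  obtain ⟨h3, h4⟩ := mul_ne_zero_iff.1 h2
  obtain ⟨l₀, θ, hθ, _, _⟩ := reg (wwL c) (Pf_ww c) h3 h4
  -- the restriction to a torus
  obtain ⟨G, hG⟩ := exists_poly_linear
    ((θ.toLinearEquiv : L6 K →ₗ[K] L6 K) ∘ₗ (Θ.symm.toLinearEquiv : L4 K →ₗ[K] L6 K) ∘ₗ
      torL K) hg
  have hG' : ∀ l : Fin 2 → K, g (θ (Θ.symm (torL K l))) = eval l G := fun l => hG l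
  have hG0 : G ≠ 0 := by
    rintro rfl
    apply h1
    rw [← hP, ← hθ, hG', map_zero]
  obtain ⟨Φ₀, hΦ₀, hΦ⟩ := hN κ hκ G hG0
  refine ⟨Φ₀ * (X 1 * (X 0 ^ 2 + 4 * C κ ^ 2 * X 1)), ?_, ?_⟩
  · refine mul_ne_zero hΦ₀ (mul_ne_zero (X_ne_zero 1) ?_)
    intro h
    have h5 := congrArg (eval ![(1 : K), 0]) h
    simp at h5
  · intro x hx
    rw [map_mul]
    by_cases h5 : s2 x.1 = 0
    · simp [h5]
    by_cases h6 : s1 x.1 ^ 2 + 4 * κ ^ 2 * s2 x.1 = 0
    · have : eval ![s1 x.1, s2 x.1] (X 1 * (X 0 ^ 2 + 4 * C κ ^ 2 * X 1) :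
          MvPolynomial (Fin 2) K) = 0 := by
        simp only [map_mul, map_add, map_pow, eval_X, eval_C]
        have h7 : s2 x.1 * (s1 x.1 ^ 2 + 4 * κ ^ 2 * s2 x.1) = 0 := by rw [h6, mul_zero]
        simpa using h7
      rw [this, mul_zero]
    obtain ⟨l, φ, hφ, hs, hq⟩ := reg x (hPf x hx) h5 h6
    have h7 : Θ.symm (torL K l) ∈ S := by
      have := hinv φ.symm _ hx
      rwa [← hφ, LieEquiv.symm_apply_apply] at this
    have h8 : eval l G = 0 := by
      rw [← hG']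
      exact hgS _ (hinv θ _ h7)
    have h9 := hΦ l h8
    rw [hs, hq] at h9
    rw [h9, zero_mul]

end Pool.Agent.Lib.MP_d55432_al.SIX.H74
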